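import Mathlib
import Pool.Agent.Results.MP_1fec7a_co.DisproofQ1

/-!
The line graph of the cube with one subdivided edge: reduced genus zero, clique number three,
not three-colourable, and the common closed neighbourhood of adjacent vertices is a clique.
-/

set_option autoImplicit false

namespace Pool.Agent.H46Z.Cube

open SimpleGraph Pool.Agent.Results.MP_1fec7a_co.DisproofQ1

/-- the two ends of the thirteen edges of the subdivided cube -/
def en1 : Fin 13 → Fin 9 := ![0, 8, 1, 2, 3, 4, 5, 6, 7, 0, 1, 2, 3]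
/-- the two ends of the thirteen edges of the subdivided cube -/
def en2 : Fin 13 → Fin 9 := ![8, 1, 2, 3, 0, 5, 6, 7, 4, 4, 5, 6, 7]

/-- incidence -/
def inc (e : Fin 13) (w : Fin 9) : Bool := en1 e == w || en2 e == w

/-- the stars -/
def E1 (w : Fin 9) : Finset (Fin 13) := Finset.univ.filter (fun e => inc e w = true)

theorem mem_E1 (e : Fin 13) (w : Fin 9) : e ∈ E1 w ↔ inc e w = true := by simp [E1]

/-- adjacency in the line graph -/
def adjb (e f : Fin 13) : Bool := e != f && (inc f (en1 e) || inc f (en2 e))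

theorem adjb_symm : ∀ e f, adjb e f = true → adjb f e = true := by decide +kernel
theorem adjb_irrefl : ∀ e, ¬ adjb e e = true := by decide +kernel

/-- the line graph -/
def G1 : SimpleGraph (Fin 13) where
  Adj e f := adjb e f = true
  symm := ⟨adjb_symm⟩
  loopless := ⟨adjb_irrefl⟩

theorem G1_adj (e f : Fin 13) : G1.Adj e f ↔ adjb e f = true := Iff.rfl

theorem adjacencyIs1 : AdjacencyIs E1 G1 := by
  intro u v huv
  constructor
  · intro h
    have key : ∀ u v : Fin 13, adjb u v = true → ∃ i0 : Fin 9, inc u i0 = true ∧ inc v i0 = true ∧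
        ∀ i : Fin 9, inc u i = true → inc v i = true → i = i0 := by decide +kernel
    obtain ⟨i0, h1, h2, h3⟩ := key u v h
    exact mult_one i0 ((mem_E1 _ _).2 h1) ((mem_E1 _ _).2 h2)
      (fun i a b => h3 i ((mem_E1 _ _).1 a) ((mem_E1 _ _).1 b))
  · intro h
    have key : ∀ u v : Fin 13, u ≠ v → ¬ adjb u v = true →
        ∀ i : Fin 9, inc u i = true → inc v i = true → False := by decide +kernel
    exact mult_zero (fun i a b => key u v huv h i ((mem_E1 _ _).1 a) ((mem_E1 _ _).1 b))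

/-- vertices of the incidence graph -/
abbrev W : Type := Fin 13 ⊕ Fin 9

/-- adjacency of the incidence graph -/
def iadj : W → W → Bool
  | Sum.inl e, Sum.inr w => inc e w
  | Sum.inr w, Sum.inl e => inc e w
  | _, _ => false

theorem iadj_iff (a b : W) : (incidence E1).Adj a b ↔ iadj a b = true := by
  constructor
  · rintro (⟨v, i, h, rfl, rfl⟩ | ⟨v, i, h, rfl, rfl⟩)
    · exact (mem_E1 _ _).1 h
    · exact (mem_E1 _ _).1 h
  · intro h
    rcases a with e | w <;> rcases b with f | x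
    · simp [iadj] at h
    · exact Or.inl ⟨e, x, (mem_E1 _ _).2 h, rfl, rfl⟩
    · exact Or.inr ⟨f, w, (mem_E1 _ _).2 h, rfl, rfl⟩
    · simp [iadj] at h

/-- rotation at the vertices of the subdivided cube -/
def rot : Fin 9 → Fin 13 → Fin 13 := ![![4, 0, 0, 0, 9, 0, 0, 0, 0, 0, 0, 0, 0], ![0, 10, 1, 0, 0, 0, 0, 0, 0, 0, 2, 0, 0], ![0, 0, 11, 2, 0, 0, 0, 0, 0, 0, 0, 3, 0], ![0, 0, 0, 12, 3, 0, 0, 0, 0, 0, 0, 0, 4], ![0, 0, 0, 0, 0, 9, 0, 0, 5, 8, 0, 0, 0], ![0, 0, 0, 0, 0, 6, 10, 0, 0, 0, 5, 0, 0], ![0, 0, 0, 0, 0, 0, 7, 11, 0, 0, 0, 6, 0], ![0, 0, 0, 0, 0, 0, 0, 8, 12, 0, 0, 0, 7], ![1, 0, 0, 0, 0, 0, 0, 0, 0, 0, 0, 0, 0]]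

/-- inverse rotation -/
def roti : Fin 9 → Fin 13 → Fin 13 := ![![9, 0, 0, 0, 0, 0, 0, 0, 0, 4, 0, 0, 0], ![0, 2, 10, 0, 0, 0, 0, 0, 0, 0, 1, 0, 0], ![0, 0, 3, 11, 0, 0, 0, 0, 0, 0, 0, 2, 0], ![0, 0, 0, 4, 12, 0, 0, 0, 0, 0, 0, 0, 3], ![0, 0, 0, 0, 0, 8, 0, 0, 9, 5, 0, 0, 0], ![0, 0, 0, 0, 0, 10, 5, 0, 0, 0, 6, 0, 0], ![0, 0, 0, 0, 0, 0, 11, 6, 0, 0, 0, 7, 0], ![0, 0, 0, 0, 0, 0, 0, 12, 7, 0, 0, 0, 8], ![1, 0, 0, 0, 0, 0, 0, 0, 0, 0, 0, 0, 0]]

/-- the other end -/
def oth (e : Fin 13) (w : Fin 9) : Fin 9 := if en1 e = w then en2 e else en1 e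

/-- second vertex of the next dart -/
def nx : W → W → W
  | Sum.inl e, Sum.inr w => Sum.inr (oth e w)
  | Sum.inr w, Sum.inl e => Sum.inl (rot w e)
  | _, b => b

/-- second vertex of the previous dart -/
def pv : W → W → W
  | Sum.inl e, Sum.inr w => Sum.inr (oth e w)
  | Sum.inr w, Sum.inl e => Sum.inl (roti w e)
  | _, b => b

theorem nx_adj : ∀ a b : W, iadj a b = true → iadj a (nx a b) = true := by decide +kernel
theorem pv_adj : ∀ a b : W, iadj a b = true → iadj a (pv a b) = true := by decide +kernel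
theorem pv_nx : ∀ a b : W, iadj a b = true → pv a (nx a b) = b := by decide +kernel
theorem nx_pv : ∀ a b : W, iadj a b = true → nx a (pv a b) = b := by decide +kernel
theorem nx_cyc : ∀ a b c : W, iadj a b = true → iadj a c = true →
    b = c ∨ nx a b = c ∨ nx a (nx a b) = c := by decide +kernel

/-- the rotation as a permutation of the darts -/
def nextP : Equiv.Perm (incidence E1).Dart where
  toFun d := ⟨(d.fst, nx d.fst d.snd), (iadj_iff _ _).2 (nx_adj _ _ ((iadj_iff _ _).1 d.adj))⟩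
  invFun d := ⟨(d.fst, pv d.fst d.snd), (iadj_iff _ _).2 (pv_adj _ _ ((iadj_iff _ _).1 d.adj))⟩
  left_inv d := by
    apply Dart.ext
    exact Prod.ext rfl (pv_nx _ _ ((iadj_iff _ _).1 d.adj))
  right_inv d := by
    apply Dart.ext
    exact Prod.ext rfl (nx_pv _ _ ((iadj_iff _ _).1 d.adj))

/-- the planar rotation system -/
def R1 : Rotation (incidence E1) where
  next := nextP
  fst_next _ := rfl
  cyclic d e h := by
    have hd := (iadj_iff _ _).1 d.adj
    have he := (iadj_iff _ _).1 e.adj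
    rw [← h] at he
    rcases nx_cyc _ _ _ hd he with h1 | h1 | h1
    · refine ⟨0, ?_⟩
      apply Dart.ext
      exact Prod.ext h h1
    · refine ⟨1, ?_⟩
      apply Dart.ext
      exact Prod.ext h h1
    · refine ⟨2, ?_⟩
      apply Dart.ext
      have : (nextP ^ (2 : ℤ)) d = nextP (nextP d) := by
        rw [zpow_two, Equiv.Perm.mul_apply]
      rw [this]
      exact Prod.ext h h1

/-- face labels -/
def L1 : Fin 13 → Fin 9 → Fin 6 := ![![0, 0, 0, 0, 0, 0, 0, 0, 2], ![0, 2, 0, 0, 0, 0, 0, 0, 0], ![0, 0, 3, 0, 0, 0, 0, 0, 0], ![0, 0, 0, 4, 0, 0, 0, 0, 0], ![1, 0, 0, 0, 0, 0, 0, 0, 0], ![0, 0, 0, 0, 2, 5, 0, 0, 0], ![0, 0, 0, 0, 0, 3, 5, 0, 0], ![0, 0, 0, 0, 0, 0, 4, 5, 0], ![0, 0, 0, 0, 5, 0, 0, 1, 0], ![2, 0, 0, 0, 1, 0, 0, 0, 0], ![0, 3, 0, 0, 0, 2, 0, 0, 0], ![0, 0, 4, 0, 0, 0, 3, 0, 0], ![0, 0, 0, 1, 0, 0, 0, 4, 0]]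

/-- face labels -/
def L2 : Fin 9 → Fin 13 → Fin 6 := ![![2, 0, 0, 0, 0, 0, 0, 0, 0, 1, 0, 0, 0], ![0, 0, 3, 0, 0, 0, 0, 0, 0, 0, 2, 0, 0], ![0, 0, 0, 4, 0, 0, 0, 0, 0, 0, 0, 3, 0], ![0, 0, 0, 0, 1, 0, 0, 0, 0, 0, 0, 0, 4], ![0, 0, 0, 0, 0, 5, 0, 0, 1, 2, 0, 0, 0], ![0, 0, 0, 0, 0, 2, 5, 0, 0, 0, 3, 0, 0], ![0, 0, 0, 0, 0, 0, 3, 5, 0, 0, 0, 4, 0], ![0, 0, 0, 0, 0, 0, 0, 4, 5, 0, 0, 0, 1], ![0, 2, 0, 0, 0, 0, 0, 0, 0, 0, 0, 0, 0]]

/-- the face of a dart -/
def lab : W → W → Fin 6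
  | Sum.inl e, Sum.inr w => L1 e w
  | Sum.inr w, Sum.inl e => L2 w e
  | _, _ => 0

theorem lab_face : ∀ a b : W, iadj a b = true → lab b (nx b a) = lab a b := by decide +kernel

theorem lab_surj : ∀ k : Fin 6, ∃ a b : W, iadj a b = true ∧ lab a b = k := by decide +kernel

theorem faces_ge : 6 ≤ R1.faces := by
  let f : (incidence E1).Dart → Fin 6 := fun d => lab d.fst d.snd
  have h1 : ∀ d, f (R1.face d) = f d := fun d => lab_face _ _ ((iadj_iff _ _).1 d.adj)
  have h2 : ∀ (n : ℕ) d, f ((R1.face ^ n) d) = f d := by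
    intro n
    induction n with
    | zero => intro d; rfl
    | succ n ih => intro d; rw [pow_succ', Equiv.Perm.mul_apply, h1, ih]
  have hfin : Finite (incidence E1).Dart := Finite.of_injective _ Dart.toProd_injective
  have h3 : ∀ d e, (Equiv.Perm.SameCycle.setoid R1.face) d e → f d = f e := by
    intro d e h
    obtain ⟨n, hn⟩ := Equiv.Perm.SameCycle.exists_nat_pow_eq (f := R1.face) h
    rw [← hn, h2]
  have h4 : Function.Surjective (Quotient.lift f h3) := by
    intro k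
    obtain ⟨a, b, hab, hk⟩ := lab_surj k
    exact ⟨Quotient.mk _ ⟨(a, b), (iadj_iff _ _).2 hab⟩, hk⟩
  have h5 := Nat.card_le_card_of_surjective _ h4
  rw [Nat.card_eq_fintype_card, Fintype.card_fin] at h5
  unfold Rotation.faces
  omega

theorem edges_le : Nat.card (incidence E1).edgeSet ≤ 26 := by
  refine (card_incidence E1).trans (le_of_eq ?_)
  rw [Nat.card_sigma]
  simp only [Nat.card_eq_fintype_card, Fintype.card_coe]
  decide +kernel

theorem reach : ∀ a : W, (incidence E1).Reachable a (Sum.inr 0) := by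
  have st : ∀ a b : W, iadj a b = true → (incidence E1).Reachable b (Sum.inr 0) →
      (incidence E1).Reachable a (Sum.inr 0) :=
    fun a b h hb => ((iadj_iff _ _).2 h).reachable.trans hb
  have w0 : (incidence E1).Reachable (Sum.inr 0) (Sum.inr 0) := Reachable.refl _
  have e0 := st (Sum.inl 0) _ (by decide) w0
  have e4 := st (Sum.inl 4) _ (by decide) w0
  have e9 := st (Sum.inl 9) _ (by decide) w0
  have w8 := st (Sum.inr 8) _ (by decide) e0
  have w3 := st (Sum.inr 3) _ (by decide) e4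
  have w4 := st (Sum.inr 4) _ (by decide) e9
  have e1 := st (Sum.inl 1) _ (by decide) w8
  have e3 := st (Sum.inl 3) _ (by decide) w3
  have e12 := st (Sum.inl 12) _ (by decide) w3
  have e5 := st (Sum.inl 5) _ (by decide) w4
  have e8 := st (Sum.inl 8) _ (by decide) w4
  have w1 := st (Sum.inr 1) _ (by decide) e1
  have w2 := st (Sum.inr 2) _ (by decide) e3
  have w7 := st (Sum.inr 7) _ (by decide) e12
  have w5 := st (Sum.inr 5) _ (by decide) e5
  have e2 := st (Sum.inl 2) _ (by decide) w1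
  have e10 := st (Sum.inl 10) _ (by decide) w1
  have e11 := st (Sum.inl 11) _ (by decide) w2
  have e7 := st (Sum.inl 7) _ (by decide) w7
  have e6 := st (Sum.inl 6) _ (by decide) w5
  have w6 := st (Sum.inr 6) _ (by decide) e6
  rintro (e | w)
  · fin_cases e <;> assumption
  · fin_cases w <;> assumption

theorem embeds0 : EmbedsInGenus (incidence E1) 0 := by
  refine ⟨R1, ?_⟩
  have hG : (incidence E1).Preconnected := fun a b => (reach a).trans (reach b).symm
  have h1 : Nat.card (incidence E1).ConnectedComponent ≤ 1 := by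
    have := hG.subsingleton_connectedComponent
    exact Finite.card_le_one_iff_subsingleton.mpr this
  have h2 := faces_ge
  have h3 := edges_le
  have h4 : Nat.card (Fin 13 ⊕ Fin 9) = 22 := by simp
  omega

theorem reduced0 : HasReducedGenus G1 0 :=
  ⟨⟨Fin 9, inferInstance, E1, adjacencyIs1, ⟨embeds0, fun _ _ => Nat.zero_le _⟩⟩,
    fun _ _ => Nat.zero_le _⟩

theorem common_aux : ∀ u v x y : Fin 13, (adjb u v && (x == u || adjb x u) && (x == v || adjb x v) &&
    (y == u || adjb y u) && (y == v || adjb y v) && x != y) = true → adjb x y = true := by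
  decide +kernel

theorem common_clique (u v x y : Fin 13) (h : adjb u v = true)
    (h1 : x = u ∨ adjb x u = true) (h2 : x = v ∨ adjb x v = true)
    (h3 : y = u ∨ adjb y u = true) (h4 : y = v ∨ adjb y v = true) (h5 : x ≠ y) :
    adjb x y = true := by
  apply common_aux u v x y
  simp only [Bool.and_eq_true, Bool.or_eq_true, beq_iff_eq, bne_iff_ne]
  exact ⟨⟨⟨⟨⟨h, h1⟩, h2⟩, h3⟩, h4⟩, h5⟩

theorem maximal_eq (s : Set (Fin 13)) (hs : Maximal G1.IsClique s) (u v : Fin 13) (huv : u ≠ v)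
    (hu : u ∈ s) (hv : v ∈ s) :
    s = {x | (x = u ∨ adjb x u = true) ∧ (x = v ∨ adjb x v = true)} := by
  have hadj : adjb u v = true := hs.prop hu hv huv
  apply hs.eq_of_subset
  · intro x hx y hy hxy
    exact common_clique u v x y hadj hx.1 hx.2 hy.1 hy.2 hxy
  · intro x hx
    constructor
    · by_cases h : x = u
      · exact Or.inl h
      · exact Or.inr (hs.prop hx hu h)
    · by_cases h : x = v
      · exact Or.inl h
      · exact Or.inr (hs.prop hx hv h)

theorem no_four : ∀ a b c d : Fin 13, adjb a b = true → adjb a c = true → adjb a d = true →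
    adjb b c = true → adjb b d = true → adjb c d = true → False := by decide +kernel

theorem cliqueNum_le3 : G1.cliqueNum ≤ 3 := by
  obtain ⟨s, hs⟩ := G1.exists_isNClique_cliqueNum
  by_contra h
  push Not at h
  have h4 : 4 ≤ s.card := by rw [hs.card_eq]; omega
  obtain ⟨t, hts, ht⟩ := Finset.exists_subset_card_eq h4
  obtain ⟨a, b, c, d, hab, hac, had, hbc, hbd, hcd, rfl⟩ := Finset.card_eq_four.1 ht
  have hc := hs.isClique
  have ha : a ∈ s := hts (by simp)
  have hb : b ∈ s := hts (by simp)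
  have hc' : c ∈ s := hts (by simp)
  have hd : d ∈ s := hts (by simp)
  exact no_four a b c d (hc ha hb hab) (hc ha hc' hac) (hc ha hd had) (hc hb hc' hbc)
    (hc hb hd hbd) (hc hc' hd hcd)

theorem tri (a b c j : Fin 3) (h1 : a ≠ b) (h2 : a ≠ c) (h3 : b ≠ c) :
    (if a = j then 1 else 0 : ℕ) + (if b = j then 1 else 0) + (if c = j then 1 else 0) = 1 := by
  revert a b c j
  decide

theorem not_colorable3 : ¬ G1.Colorable 3 := by
  rintro ⟨C⟩
  have h : ∀ a b : Fin 13, adjb a b = true → C a ≠ C b := fun a b hab => C.valid hab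
  have t0 := tri (C 0) (C 4) (C 9) (C 0) (h _ _ (by decide)) (h _ _ (by decide)) (h _ _ (by decide))
  have t1 := tri (C 1) (C 2) (C 10) (C 0) (h _ _ (by decide)) (h _ _ (by decide)) (h _ _ (by decide))
  have t2 := tri (C 2) (C 3) (C 11) (C 0) (h _ _ (by decide)) (h _ _ (by decide)) (h _ _ (by decide))
  have t3 := tri (C 3) (C 4) (C 12) (C 0) (h _ _ (by decide)) (h _ _ (by decide)) (h _ _ (by decide))
  have t4 := tri (C 5) (C 8) (C 9) (C 0) (h _ _ (by decide)) (h _ _ (by decide)) (h _ _ (by decide))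
  have t5 := tri (C 5) (C 6) (C 10) (C 0) (h _ _ (by decide)) (h _ _ (by decide)) (h _ _ (by decide))
  have t6 := tri (C 6) (C 7) (C 11) (C 0) (h _ _ (by decide)) (h _ _ (by decide)) (h _ _ (by decide))
  have t7 := tri (C 7) (C 8) (C 12) (C 0) (h _ _ (by decide)) (h _ _ (by decide)) (h _ _ (by decide))
  have t8 : C 1 ≠ C 0 := h _ _ (by decide)
  rw [if_neg t8] at t1
  rw [if_pos rfl] at t0
  omega

theorem chromatic_ge4 : 4 ≤ ENat.toNat G1.chromaticNumber := by
  by_contra h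
  push Not at h
  have h1 := G1.colorable_chromaticNumber_of_fintype
  exact not_colorable3 (h1.mono (by omega))

end Pool.Agent.H46Z.Cube
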